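import Pool.Agent.H96.MC.Targets

/-!
Clusters at one of the scales (module CLU of mc_modules, MP_5da387_pr).
-/

namespace Pool.Agent.H96.MC.M86

open Classical Pool.Agent.H96.MC

noncomputable section

variable {d : ℕ}

/-- the graph of the points at distance at most `r` -/
def gr (A : Finset (Cell d)) (r : ℕ) : SimpleGraph A where
  Adj a b := a ≠ b ∧ sn (a.1 - b.1) ≤ r
  symm := ⟨fun a b h => ⟨h.1.symm, by rw [sn_sub_comm]; exact h.2⟩⟩
  loopless := ⟨fun a h => h.1 rfl⟩

lemma gr_adj {A : Finset (Cell d)} {r : ℕ} {a b : A} :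
    (gr A r).Adj a b ↔ a ≠ b ∧ sn (a.1 - b.1) ≤ r := Iff.rfl

lemma gr_walk {A : Finset (Cell d)} {r : ℕ} {a b : A} (p : (gr A r).Walk a b) :
    sn (a.1 - b.1) ≤ p.length * r := by
  induction p with
  | nil => simp [sn_zero]
  | @cons u v w h p ih =>
    have h1 := sn_sub_le u.1 v.1 w.1
    have h2 := (gr_adj.1 h).2
    rw [SimpleGraph.Walk.length_cons, add_mul, one_mul]
    omega

lemma gr_reach {A : Finset (Cell d)} {r n0 : ℕ} (hA : A.card ≤ n0) {a b : A}
    (h : (gr A r).Reachable a b) : sn (a.1 - b.1) ≤ n0 * r := by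
  obtain ⟨p, hp⟩ := h.exists_isPath
  have h1 := gr_walk p
  have h2 := hp.length_lt
  rw [Fintype.card_coe] at h2
  exact h1.trans (Nat.mul_le_mul_right _ (by omega))

lemma gr_mono {A : Finset (Cell d)} {r r' : ℕ} (h : r ≤ r') : gr A r ≤ gr A r' := by
  intro a b hab
  rw [gr_adj] at hab ⊢
  exact ⟨hab.1, hab.2.trans h⟩

/-- number of clusters -/
def nc (A : Finset (Cell d)) (r : ℕ) : ℕ := Nat.card (gr A r).ConnectedComponent

lemma nc_le (A : Finset (Cell d)) (r : ℕ) : nc A r ≤ A.card := by
  have h := Nat.card_le_card_of_surjective (fun a : A => (gr A r).connectedComponentMk a)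
    (fun K => K.exists_rep)
  have h2 : Nat.card A = A.card := by
    rw [Nat.card_eq_fintype_card, Fintype.card_coe]
  rw [h2] at h
  exact h

lemma map_surj {A : Finset (Cell d)} {r r' : ℕ} (h : r ≤ r') :
    Function.Surjective (SimpleGraph.ConnectedComponent.map
      (SimpleGraph.Hom.ofLE (gr_mono (A := A) h))) := by
  intro K
  obtain ⟨a, ha⟩ := K.exists_rep
  exact ⟨(gr A r).connectedComponentMk a, ha⟩

lemma nc_anti {A : Finset (Cell d)} {r r' : ℕ} (h : r ≤ r') : nc A r' ≤ nc A r :=
  Nat.card_le_card_of_surjective _ (map_surj h)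

lemma reach_of_nc {A : Finset (Cell d)} {r r' : ℕ} (h : r ≤ r') (h2 : nc A r' = nc A r) {a b : A}
    (hab : (gr A r').Reachable a b) : (gr A r).Reachable a b := by
  have hs := map_surj (A := A) h
  have hb : Function.Bijective (SimpleGraph.ConnectedComponent.map
      (SimpleGraph.Hom.ofLE (gr_mono (A := A) h))) := by
    rw [Nat.bijective_iff_surjective_and_card]
    exact ⟨hs, h2.symm⟩
  rw [← SimpleGraph.ConnectedComponent.eq]
  apply hb.1
  simp only [SimpleGraph.ConnectedComponent.map_mk]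
  rw [SimpleGraph.ConnectedComponent.eq]
  exact hab

lemma exists_level {A : Finset (Cell d)} {n0 : ℕ} {rho : ℕ → ℕ} (hr : Monotone rho)
    (hA : A.card ≤ n0) : ∃ i ≤ n0, nc A (rho (i + 1)) = nc A (rho i) := by
  by_contra hcon
  push Not at hcon
  have h1 : ∀ i ≤ n0, nc A (rho (i + 1)) < nc A (rho i) := fun i hi =>
    lt_of_le_of_ne (nc_anti (hr (Nat.le_succ i))) (hcon i hi)
  have h2 : ∀ i ≤ n0 + 1, nc A (rho i) + i ≤ nc A (rho 0) := by
    intro i
    induction i with
    | zero => intro _; simp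
    | succ i ih =>
      intro hi
      have := ih (by omega)
      have := h1 i (by omega)
      omega
  have h3 := h2 (n0 + 1) le_rfl
  have h4 := nc_le A (rho 0)
  omega

theorem clu : T_CLU := by
  intro d n0 rho A hr hA
  obtain ⟨i, hi, hnc⟩ := exists_level hr hA
  have hreach : ∀ a b : A, (gr A (rho (i + 1))).Reachable a b → (gr A (rho i)).Reachable a b :=
    fun a b h => reach_of_nc (hr (Nat.le_succ i)) hnc h
  have hrep : ∀ K : (gr A (rho i)).ConnectedComponent,
      ∃ a, (gr A (rho i)).connectedComponentMk a = K := fun K => K.exists_rep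
  choose rep hrep using hrep
  have hfin : Finite (gr A (rho i)).ConnectedComponent :=
    Finite.of_surjective (fun a : A => (gr A (rho i)).connectedComponentMk a)
      (fun K => K.exists_rep)
  have hfin2 : (Set.range (fun K => (rep K).1)).Finite := Set.finite_range _
  refine ⟨i, hi, hfin2.toFinset, ?_, ?_, ?_, ?_⟩
  · intro c hc
    rw [Set.Finite.mem_toFinset] at hc
    obtain ⟨K, rfl⟩ := hc
    exact (rep K).2
  · intro a ha
    refine ⟨(rep ((gr A (rho i)).connectedComponentMk ⟨a, ha⟩)).1, ?_, ?_⟩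
    · rw [Set.Finite.mem_toFinset]
      exact ⟨_, rfl⟩
    · have h1 := hrep ((gr A (rho i)).connectedComponentMk ⟨a, ha⟩)
      rw [SimpleGraph.ConnectedComponent.eq] at h1
      exact gr_reach hA h1.symm
  · intro a ha c hc
    rw [Set.Finite.mem_toFinset] at hc
    obtain ⟨K, rfl⟩ := hc
    by_cases h : (gr A (rho i)).Reachable ⟨a, ha⟩ (rep K)
    · exact Or.inl (gr_reach hA h)
    · right
      by_contra h2
      push Not at h2
      apply h
      by_cases h3 : (⟨a, ha⟩ : A) = rep K
      · rw [h3]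
      · apply hreach
        exact SimpleGraph.Adj.reachable (gr_adj.2 ⟨h3, h2⟩)
  · intro c hc c' hc' hne
    rw [Set.Finite.mem_toFinset] at hc hc'
    obtain ⟨K, rfl⟩ := hc
    obtain ⟨K', rfl⟩ := hc'
    by_contra h2
    push Not at h2
    have h3 : rep K ≠ rep K' := fun h => hne (congrArg Subtype.val h)
    have h4 := hreach _ _ (SimpleGraph.Adj.reachable (gr_adj.2 ⟨h3, h2⟩))
    rw [← SimpleGraph.ConnectedComponent.eq, hrep, hrep] at h4
    exact h3 (by rw [h4])

end

end Pool.Agent.H96.MC.M86
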