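import Pool.Agent.H96.MC.Targets

/-!
Lattice points which are close to a large multiple of `lam` are sums of types
(module CONE of mc_modules, MP_5da387_pr).
-/

namespace Pool.Agent.H96.MC.M86

open Classical Pool.Agent.H96.MC

noncomputable section

variable {q : ℕ}

lemma lat_repr (V : Finset (Fin q → ℕ)) (z : Fin q → ℤ) (hz : z ∈ Lat V) :
    ∃ k : (Fin q → ℕ) → ℤ, ∀ i, z i = ∑ v ∈ V, k v * (v i : ℤ) := by
  unfold Lat at hz
  induction hz using AddSubgroup.closure_induction with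
  | mem x hx =>
    obtain ⟨v, hv, rfl⟩ := hx
    refine ⟨fun w => if w = v then 1 else 0, fun i => ?_⟩
    simp only [toZ, ite_mul, one_mul, zero_mul]
    rw [Finset.sum_ite_eq', if_pos (Finset.mem_coe.1 hv)]
  | zero => exact ⟨fun _ => 0, fun i => by simp⟩
  | add x y _ _ hx hy =>
    obtain ⟨k, hk⟩ := hx
    obtain ⟨k', hk'⟩ := hy
    refine ⟨fun v => k v + k' v, fun i => ?_⟩
    simp only [Pi.add_apply, hk, hk', add_mul, Finset.sum_add_distrib]
  | neg x _ hx =>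
    obtain ⟨k, hk⟩ := hx
    refine ⟨fun v => - k v, fun i => ?_⟩
    simp only [Pi.neg_apply, hk, neg_mul, Finset.sum_neg_distrib]

lemma lat_repr' (V : Finset (Fin q → ℕ)) (z : Fin q → ℤ) (hz : z ∈ Lat V) :
    ∃ (M : ℕ), ∃ k : (Fin q → ℕ) → ℤ, (∀ v ∈ V, -(M : ℤ) ≤ k v) ∧
      ∀ i, z i = ∑ v ∈ V, k v * (v i : ℤ) := by
  obtain ⟨k, hk⟩ := lat_repr V z hz
  refine ⟨V.sup (fun v => (k v).natAbs), k, fun v hv => ?_, hk⟩
  have h : (k v).natAbs ≤ V.sup (fun v => (k v).natAbs) :=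
    Finset.le_sup (f := fun v => (k v).natAbs) hv
  omega

/-- remainders -/
def Rem (V : Finset (Fin q → ℕ)) : Set (Fin q → ℤ) :=
  {z | z ∈ Lat V ∧ ∃ r : (Fin q → ℕ) → ℝ, (∀ v, 0 ≤ r v ∧ r v ≤ 1) ∧
    ∀ i, (z i : ℝ) = ∑ v ∈ V, r v * (v i : ℝ)}

lemma rem_finite (V : Finset (Fin q → ℕ)) : (Rem V).Finite := by
  apply (Set.finite_Icc (0 : Fin q → ℤ) (fun i => ∑ v ∈ V, (v i : ℤ))).subset
  rintro z ⟨-, r, hr, hz⟩
  constructor
  · intro i
    have : (0 : ℝ) ≤ (z i : ℝ) := by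
      rw [hz i]
      exact Finset.sum_nonneg (fun v _ => mul_nonneg (hr v).1 (Nat.cast_nonneg _))
    exact_mod_cast this
  · intro i
    have : (z i : ℝ) ≤ ((∑ v ∈ V, (v i : ℤ) : ℤ) : ℝ) := by
      rw [hz i]
      push_cast
      exact Finset.sum_le_sum (fun v _ => mul_le_of_le_one_left (Nat.cast_nonneg _) (hr v).2)
    exact_mod_cast this

lemma rem_bound (V : Finset (Fin q → ℕ)) : ∃ M : ℕ, ∀ z ∈ Rem V,
    ∃ k : (Fin q → ℕ) → ℤ, (∀ v ∈ V, -(M : ℤ) ≤ k v) ∧ ∀ i, z i = ∑ v ∈ V, k v * (v i : ℤ) := by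
  have h : ∀ z : Fin q → ℤ, ∃ M : ℕ, z ∈ Lat V → ∃ k : (Fin q → ℕ) → ℤ,
      (∀ v ∈ V, -(M : ℤ) ≤ k v) ∧ ∀ i, z i = ∑ v ∈ V, k v * (v i : ℤ) := by
    intro z
    by_cases hz : z ∈ Lat V
    · obtain ⟨M, k, hk⟩ := lat_repr' V z hz
      exact ⟨M, fun _ => ⟨k, hk⟩⟩
    · exact ⟨0, fun h => (hz h).elim⟩
  choose M hM using h
  refine ⟨(rem_finite V).toFinset.sup M, fun z hz => ?_⟩
  obtain ⟨k, h1, h2⟩ := hM z hz.1
  refine ⟨k, fun v hv => ?_, h2⟩
  have h3 : M z ≤ (rem_finite V).toFinset.sup M :=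
    Finset.le_sup (f := M) ((rem_finite V).mem_toFinset.2 hz)
  have h4 := h1 v hv
  have h5 : (M z : ℤ) ≤ (((rem_finite V).toFinset.sup M : ℕ) : ℤ) := by exact_mod_cast h3
  linarith

lemma combo (D : Dat q) : ∃ η δ : ℝ, 0 < η ∧ η ≤ 1 / 2 ∧ 0 < δ ∧
    ∀ (x : Fin q → ℕ) (c : ℝ), 0 < c → Fat D.lam η c x →
      ∃ t : (Fin q → ℕ) → ℝ, (∀ v, c * δ ≤ t v) ∧ ∀ i, (x i : ℝ) = ∑ v ∈ D.V, t v * (v i : ℝ) := by
  obtain ⟨r0, hr0, hball⟩ := Metric.mem_nhds_iff.1 (mem_interior_iff_mem_nhds.1 D.int)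
  set S : Fin q → ℝ := fun i => ∑ v ∈ D.V, (v i : ℝ) with hS
  have hS0 : ∀ i, 0 ≤ S i := fun i => Finset.sum_nonneg (fun v _ => Nat.cast_nonneg _)
  set B : ℝ := 1 + ∑ i, S i with hB
  have hB0 : 0 < B := by
    have := Finset.sum_nonneg (fun i (_ : i ∈ Finset.univ) => hS0 i)
    linarith
  have hSB : ∀ i, S i < B := by
    intro i
    have := Finset.single_le_sum (f := S) (fun j _ => hS0 j) (Finset.mem_univ i)
    linarith
  set C : ℝ := 1 + ∑ i, D.lam i with hC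
  have hC0 : 0 < C := by
    have := Finset.sum_nonneg (fun i (_ : i ∈ Finset.univ) => (D.pos i).le)
    linarith
  have hlC : ∀ i, D.lam i < C := by
    intro i
    have := Finset.single_le_sum (f := D.lam) (fun j _ => (D.pos j).le) (Finset.mem_univ i)
    linarith
  refine ⟨min (1 / 2) (r0 / (2 * C)), r0 / (2 * B), by positivity, min_le_left _ _, by positivity,
    ?_⟩
  intro x c hc hx
  have hp : (fun i => (x i : ℝ) / c - r0 / (2 * B) * S i) ∈ cone D.V := by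
    apply hball
    rw [Metric.mem_ball, dist_pi_lt_iff hr0]
    intro i
    rw [Real.dist_eq]
    have h1 : |(x i : ℝ) / c - D.lam i| ≤ min (1 / 2) (r0 / (2 * C)) * D.lam i := by
      have h := hx i
      have e : (x i : ℝ) / c - D.lam i = ((x i : ℝ) - c * D.lam i) / c := by
        field_simp
      rw [e, abs_div, abs_of_pos hc, div_le_iff₀ hc]
      calc _ ≤ _ := h
        _ = _ := by ring
    have h2 : min (1 / 2) (r0 / (2 * C)) * D.lam i ≤ r0 / 2 := by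
      calc min (1 / 2) (r0 / (2 * C)) * D.lam i ≤ r0 / (2 * C) * D.lam i :=
            mul_le_mul_of_nonneg_right (min_le_right _ _) (D.pos i).le
        _ ≤ r0 / (2 * C) * C := mul_le_mul_of_nonneg_left (hlC i).le (by positivity)
        _ = r0 / 2 := by field_simp
    have h3 : r0 / (2 * B) * S i < r0 / 2 := by
      calc r0 / (2 * B) * S i < r0 / (2 * B) * B :=
            mul_lt_mul_of_pos_left (hSB i) (by positivity)
        _ = r0 / 2 := by field_simp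
    have h4 : 0 ≤ r0 / (2 * B) * S i := mul_nonneg (by positivity) (hS0 i)
    rw [abs_le] at h1
    rw [abs_lt]
    constructor
    · linarith [h1.1]
    · linarith [h1.2]
  obtain ⟨a, ha, hap⟩ := hp
  refine ⟨fun v => c * (r0 / (2 * B) + a v), fun v => ?_, fun i => ?_⟩
  · have := mul_nonneg hc.le (ha v)
    rw [mul_add]
    linarith
  · have h := congrFun hap i
    have h1 : (x i : ℝ) = c * (r0 / (2 * B) * S i + ∑ v ∈ D.V, a v * (v i : ℝ)) := by
      rw [← h]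
      field_simp
      ring
    rw [h1, hS, Finset.mul_sum, ← Finset.sum_add_distrib, Finset.mul_sum]
    apply Finset.sum_congr rfl
    intro v _
    ring

lemma toZ_zsmul_mem (V : Finset (Fin q → ℕ)) {v : Fin q → ℕ} (hv : v ∈ V) (k : ℤ) :
    k • toZ v ∈ Lat V :=
  AddSubgroup.zsmul_mem _ (AddSubgroup.subset_closure (Set.mem_image_of_mem toZ (Finset.mem_coe.2 hv))) k

theorem cone : T_CONE := by
  intro q D
  obtain ⟨η, δ, hη, hη2, hδ, hcombo⟩ := combo D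
  obtain ⟨M, hM⟩ := rem_bound D.V
  refine ⟨η, (M + 1) / δ, hη, hη2, by positivity, ?_⟩
  intro x c hc hx hlat
  have hc0 : 0 < c := lt_of_lt_of_le (by positivity) hc
  obtain ⟨t, ht, hxt⟩ := hcombo x c hc0 hx
  have hMt : ∀ v, (M : ℝ) + 1 ≤ t v := by
    intro v
    rw [div_le_iff₀ hδ] at hc
    linarith [ht v]
  have hfl : ∀ v, (M : ℤ) + 1 ≤ ⌊t v⌋ := by
    intro v
    rw [Int.le_floor]
    push_cast
    exact hMt v
  set z : Fin q → ℤ := toZ x - ∑ v ∈ D.V, ⌊t v⌋ • toZ v with hz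
  have hzi : ∀ i, z i = (x i : ℤ) - ∑ v ∈ D.V, ⌊t v⌋ * (v i : ℤ) := by
    intro i
    simp [hz, toZ, Finset.sum_apply]
  have hzR : z ∈ Rem D.V := by
    refine ⟨?_, fun v => Int.fract (t v), fun v => ⟨Int.fract_nonneg _, (Int.fract_lt_one _).le⟩,
      fun i => ?_⟩
    · rw [hz]
      exact AddSubgroup.sub_mem _ hlat (AddSubgroup.sum_mem _ (fun v hv => toZ_zsmul_mem _ hv _))
    · rw [hzi i]
      push_cast
      rw [hxt i, ← Finset.sum_sub_distrib]
      apply Finset.sum_congr rfl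
      intro v _
      rw [← sub_mul, Int.self_sub_floor]
  obtain ⟨k, hk, hkz⟩ := hM z hzR
  have hx2 : x = ∑ v ∈ D.V, (⌊t v⌋ + k v).toNat • v := by
    funext i
    have h1 : (x i : ℤ) = ∑ v ∈ D.V, (⌊t v⌋ + k v) * (v i : ℤ) := by
      have h2 := hzi i
      rw [hkz i] at h2
      simp only [add_mul, Finset.sum_add_distrib]
      linarith
    have h3 : ((∑ v ∈ D.V, (⌊t v⌋ + k v).toNat * v i : ℕ) : ℤ) = x i := by
      rw [h1]
      push_cast
      apply Finset.sum_congr rfl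
      intro v hv
      rw [Int.toNat_of_nonneg]
      have := hk v hv
      have := hfl v
      linarith
    have h4 : (∑ v ∈ D.V, (⌊t v⌋ + k v).toNat • v) i = ∑ v ∈ D.V, (⌊t v⌋ + k v).toNat * v i := by
      simp [Finset.sum_apply]
    rw [h4]
    exact_mod_cast h3.symm
  rw [hx2]
  exact AddSubmonoid.sum_mem _ (fun v hv => AddSubmonoid.nsmul_mem _
    (AddSubmonoid.subset_closure (Finset.mem_coe.2 hv)) _)

end

end Pool.Agent.H96.MC.M86
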