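import Pool.Agent.H96.MC.Targets

/-!
Flows with prescribed divergence (module FLOW of mc_modules, MP_5da387_pr).
-/

namespace Pool.Agent.H96.MC.M86

open Classical Pool.Agent.H96.MC

noncomputable section

variable {d : ℕ} {A : Type} [AddCommGroup A]

/-- `f` is the divergence of a flow on `Y` -/
def Solv (Y : Finset (Cell d)) (f : Cell d → A) : Prop :=
  ∃ φ : Cell d → Cell d → A, (∀ b b', φ b b' ≠ 0 → b ∈ Y ∧ b' ∈ Y ∧ Adj b b') ∧
    ∀ b ∈ Y, ∑ b' ∈ Y, φ b b' - ∑ b' ∈ Y, φ b' b = f b

lemma solv_zero (Y : Finset (Cell d)) : Solv Y (fun _ => (0 : A)) :=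
  ⟨fun _ _ => 0, fun _ _ h => (h rfl).elim, fun b _ => by simp⟩

lemma solv_add {Y : Finset (Cell d)} {f g : Cell d → A} (hf : Solv Y f) (hg : Solv Y g) :
    Solv Y (fun b => f b + g b) := by
  obtain ⟨φ, h1, h2⟩ := hf
  obtain ⟨ψ, h3, h4⟩ := hg
  refine ⟨fun b b' => φ b b' + ψ b b', ?_, ?_⟩
  · intro b b' h
    by_cases h0 : φ b b' = 0
    · apply h3
      intro h5
      apply h
      simp [h0, h5]
    · exact h1 b b' h0
  · intro b hb
    have e1 := h2 b hb
    have e2 := h4 b hb
    simp only [Finset.sum_add_distrib]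
    rw [← e1, ← e2]
    abel

lemma solv_congr {Y : Finset (Cell d)} {f g : Cell d → A} (hf : Solv Y f)
    (h : ∀ b ∈ Y, f b = g b) : Solv Y g := by
  obtain ⟨φ, h1, h2⟩ := hf
  exact ⟨φ, h1, fun b hb => by rw [h2 b hb, h b hb]⟩

lemma solv_edge {Y : Finset (Cell d)} {x y : Cell d} (hx : x ∈ Y) (hy : y ∈ Y) (hxy : Adj x y)
    (a : A) : Solv Y (fun b => (if b = x then a else 0) - (if b = y then a else 0)) := by
  refine ⟨fun b b' => if b = x ∧ b' = y then a else 0, ?_, ?_⟩
  · intro b b' h
    have : b = x ∧ b' = y := by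
      by_contra h0
      simp [h0] at h
    rw [this.1, this.2]
    exact ⟨hx, hy, hxy⟩
  · intro b hb
    congr 1
    · by_cases hbx : b = x
      · simp [hbx, Finset.sum_ite_eq', hy]
      · simp [hbx]
    · by_cases hby : b = y
      · simp [hby, Finset.sum_ite_eq', hx]
      · simp [hby]

lemma solv_conn {Y : Finset (Cell d)} {x y : Cell d}
    (h : Relation.ReflTransGen (fun a b => a ∈ Y ∧ b ∈ Y ∧ Adj a b) x y) (a : A) :
    Solv Y (fun b => (if b = x then a else 0) - (if b = y then a else 0)) := by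
  induction h with
  | refl => exact solv_congr (solv_zero Y) (fun b _ => by simp)
  | tail _ h2 ih =>
    exact solv_congr (solv_add ih (solv_edge h2.1 h2.2.1 h2.2.2 a)) (fun b _ => by abel)

lemma solv_sum {Y : Finset (Cell d)} {ι : Type} (s : Finset ι) (F : ι → Cell d → A)
    (h : ∀ i ∈ s, Solv Y (F i)) : Solv Y (fun b => ∑ i ∈ s, F i b) := by
  induction s using Finset.induction_on with
  | empty => exact solv_congr (solv_zero Y) (fun b _ => by simp)
  | insert i s hi ih =>
    have h1 := solv_add (h i (Finset.mem_insert_self i s))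
      (ih (fun j hj => h j (Finset.mem_insert_of_mem hj)))
    exact solv_congr h1 (fun b _ => by rw [Finset.sum_insert hi])

theorem flow : T_FLOW := by
  intro d A _ Y f hY hf
  show Solv Y f
  rcases Y.eq_empty_or_nonempty with h0 | ⟨b0, hb0⟩
  · subst h0
    exact ⟨fun _ _ => 0, fun _ _ h => (h rfl).elim, fun b hb => by simp at hb⟩
  have h1 := solv_sum Y (fun x b => (if b = x then f x else 0) - (if b = b0 then f x else 0))
    (fun x hx => solv_conn (hY x hx b0 hb0) (f x))
  refine solv_congr h1 ?_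
  intro b hb
  rw [Finset.sum_sub_distrib]
  have e1 : ∑ x ∈ Y, (if b = x then f x else 0) = f b := by
    rw [Finset.sum_ite_eq, if_pos hb]
  have e2 : ∑ x ∈ Y, (if b = b0 then f x else 0) = 0 := by
    by_cases h : b = b0
    · simp [h, hf]
    · simp [h]
  rw [e1, e2, sub_zero]

end

end Pool.Agent.H96.MC.M86
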