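import Pool.Agent.H96.MC.Targets3

/-!
Parameters exist (module PAR of mc_modules, MP_5da387_pr).
-/

namespace Pool.Agent.H96.MC.M86

open Classical Pool.Agent.H96.MC Filter

noncomputable section

lemma slow_of_max {Ns : ℕ} {τ τ' Nf : ℕ → ℕ} (h : Slow Ns (fun n => max (τ n) (τ' n)) Nf) :
    Slow Ns τ Nf ∧ Slow Ns τ' Nf := by
  obtain ⟨h1, h2, h3, h4, h5⟩ := h
  refine ⟨⟨h1, h2, h3, h4, fun j => ?_⟩, ⟨h1, h2, h3, h4, fun j => ?_⟩⟩
  · rcases h5 j with h6 | h6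
    · exact Or.inl h6
    · exact Or.inr (le_trans (le_max_left _ _) h6)
  · rcases h5 j with h6 | h6
    · exact Or.inl h6
    · exact Or.inr (le_trans (le_max_right _ _) h6)

lemma largely_and {X Y : (Ns m C l0 : ℕ) → (ℕ → ℕ) → Prop} (hX : Largely X) (hY : Largely Y) :
    Largely (fun Ns m C l0 Nf => X Ns m C l0 Nf ∧ Y Ns m C l0 Nf) := by
  unfold Largely at *
  filter_upwards [hX, hY] with Ns hX hY
  filter_upwards [hX, hY] with m hX hY
  filter_upwards [hX, hY] with C hX hY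
  filter_upwards [hX, hY] with l0 hX hY
  obtain ⟨τ, hτ⟩ := hX
  obtain ⟨τ', hτ'⟩ := hY
  exact ⟨fun n => max (τ n) (τ' n), fun Nf h =>
    ⟨hτ Nf (slow_of_max h).1, hτ' Nf (slow_of_max h).2⟩⟩

lemma l0_large {q : ℕ} (D : Dat q) (d : ℕ) (η c₁ : ℝ) (E lT : ℕ) (hd : 1 ≤ d) (hη : 0 < η) :
    ∀ᶠ l0 : ℕ in atTop, 1 ≤ l0 ∧ lT ≤ l0 ∧ c₁ ≤ (l0 : ℝ) ^ d ∧
      ∀ i, 8 * (d : ℝ) * E ≤ η * (l0 : ℝ) ^ d * D.lam i := by
  have hpow : ∀ l0 : ℕ, 1 ≤ l0 → (l0 : ℝ) ≤ (l0 : ℝ) ^ d := by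
    intro l0 h
    have h1 : l0 ≤ l0 ^ d := Nat.le_self_pow (by omega) l0
    exact_mod_cast h1
  have hc : ∀ᶠ l0 : ℕ in atTop, c₁ ≤ (l0 : ℝ) :=
    tendsto_natCast_atTop_atTop.eventually_ge_atTop c₁
  have hi : ∀ᶠ l0 : ℕ in atTop, ∀ i, 8 * (d : ℝ) * E / (η * D.lam i) ≤ (l0 : ℝ) := by
    rw [eventually_all]
    intro i
    exact tendsto_natCast_atTop_atTop.eventually_ge_atTop _
  filter_upwards [eventually_ge_atTop 1, eventually_ge_atTop lT, hc, hi] with l0 h1 h2 h3 h4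
  refine ⟨h1, h2, h3.trans (hpow l0 h1), fun i => ?_⟩
  have h5 := h4 i
  have hlam := D.pos i
  rw [div_le_iff₀ (by positivity)] at h5
  calc 8 * (d : ℝ) * E ≤ (l0 : ℝ) * (η * D.lam i) := h5
    _ ≤ (l0 : ℝ) ^ d * (η * D.lam i) :=
      mul_le_mul_of_nonneg_right (hpow l0 h1) (by positivity)
    _ = η * (l0 : ℝ) ^ d * D.lam i := by ring

theorem par (hA : T_APOS) (hT : T_TYP) (hS : T_STAGE) (hSl : T_SLOW) (h1 : T_NUMA) (h2 : T_NUMB)
    (h3 : T_NUMC) (h4 : T_NUMD) (h5 : T_NUME) : T_PAR := by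
  intro d q D η c₁ E hd hAL
  obtain ⟨ϖ, cT, lT, hϖ0, hϖ, hcT0, hcT, htyp⟩ := hT d q D η hd hAL.1 hAL.2.1
  obtain ⟨n0, e, lst, hst⟩ := hS d q D η c₁ cT hd hAL hcT0
  have ha : 0 < aconst D d := hA d q D hd
  have A1 := h1 d ϖ (fun N => KF η (e N) N (n0 N)) lst hd hϖ0 hϖ
  have A2 := h2 d (aconst D d) cT ϖ hd ha hcT0 hcT hϖ0 hϖ
  have A3 := h3 d (aconst D d) cT ϖ n0 (fun N => KF η (e N) N (n0 N)) hd ha hcT0 hcT hϖ0 hϖ
  have A4 := h4 d (aconst D d) cT ϖ n0 hd ha hcT0 hcT hϖ0 hϖ (fun N hN => (hst N hN).1)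
  have A5 := h5 d (aconst D d) cT hd ha hcT0 hcT
  have hall := largely_and (largely_and (largely_and A1 A2) (largely_and A3 A4)) A5
  unfold Largely at hall
  obtain ⟨Ns, hNs, hNsd⟩ := (hall.and (eventually_ge_atTop (d + 2))).exists
  obtain ⟨m, hm⟩ := hNs.exists
  obtain ⟨C, hC⟩ := hm.exists
  obtain ⟨l0, ⟨τ, hτ⟩, hl1, hlT, hlc, hlE⟩ := (hC.and (l0_large D d η c₁ E lT hd hAL.1)).exists
  obtain ⟨Nf, hNf⟩ := hSl Ns τ
  obtain ⟨⟨⟨⟨a1, a2, a3, a4, a5⟩, b1⟩, ⟨c1, d1⟩⟩, ⟨e1, e2⟩⟩ := hτ Nf hNf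
  have hN2 : ∀ j, d + 2 ≤ Nf j := by
    intro j
    have h6 := hNf.1 (Nat.zero_le j)
    rw [hNf.2.1] at h6
    omega
  have hlS0 : lS l0 m 0 = l0 := by simp [lS]
  have hlj : ∀ j, l0 ≤ lS l0 m j := fun j => Nat.le_of_dvd (a1 j) (a2 j)
  have hwS0 : wS ϖ l0 m 0 = 0 := by simp [wS]
  have hwj : ∀ j, (wS ϖ l0 m j : ℝ) ≤ ϖ * (lS l0 m j : ℝ) := by
    intro j
    by_cases hj : j = 0
    · rw [hj, hwS0]
      have : (0 : ℝ) ≤ ϖ * (lS l0 m 0 : ℝ) := by positivity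
      simpa using this
    · simp only [wS, if_neg hj]
      exact Nat.floor_le (by positivity)
  refine ⟨{ l := lS l0 m
            N := Nf
            A := AS l0 C
            w := wS ϖ l0 m
            e := fun j => e (Nf j)
            n0 := fun j => n0 (Nf j)
            s := fun j => sF η (e (Nf j)) (Nf j) (n0 (Nf j))
            T := fun j => TF η (e (Nf j)) (Nf j) (n0 (Nf j))
            K := fun j => KF η (e (Nf j)) (Nf j) (n0 (Nf j))
            k0 := k0S ϖ m C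
            kap := kapS (aconst D d) cT d l0 m Nf }, cT, thS (aconst D d) cT d l0 m Nf,
    fun j => (aconst D d * ((Nf j : ℝ) - d) ^ d - 3) * (lS l0 m j : ℝ) ^ d, ?_, ?_⟩
  · exact {
      lpos := a1
      dvd := fun j => by
        show lS l0 m 0 ∣ lS l0 m j
        rw [hlS0]
        exact a2 j
      lbig := fun j hj => by
        show 8 * d * lS l0 m 0 ≤ lS l0 m j
        rw [hlS0]
        exact (a5 j hj).2.1
      l0c := by
        show c₁ ≤ (lS l0 m 0 : ℝ) ^ d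
        rw [hlS0]
        exact hlc
      l0E := fun i => by
        show 8 * (d : ℝ) * E ≤ η * (lS l0 m 0 : ℝ) ^ d * D.lam i
        rw [hlS0]
        exact hlE i
      w0 := hwS0
      k0 := fun j hj => (a5 j hj).2.2.1
      wk := fun j hj => by
        show 4 * AS l0 C (k0S ϖ m C j) + 4 * lS l0 m 0 ≤ wS ϖ l0 m j
        rw [hlS0]
        exact (a5 j hj).2.2.2.1
      wl := fun j hj => by
        show wS ϖ l0 m j + 4 * lS l0 m 0 ≤ lS l0 m j
        rw [hlS0]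
        exact (a5 j hj).2.2.2.2.1
      Amono := a4
      lA := a3
      N2 := fun j _ => hN2 j
      KA := fun j hj => (a5 j hj).2.2.2.2.2
      eK := fun j _ => rfl
      es := fun j _ i => rfl
      eT := fun j _ i => rfl
      pig := c1
      rl := fun j hj => ((hst (Nf j) (hN2 j)).2 (lS l0 m j) (a5 j hj).1).1 }
  · exact {
      zero := by
        show thS (aconst D d) cT d l0 m Nf 0 ≤ cT * (lS l0 m 0 : ℝ) ^ d
        rw [hlS0]
        simp [thS]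
      typ := fun j b => htyp (lS l0 m j) (wS ϖ l0 m j) (hlT.trans (hlj j)) (hwj j) b
      rb := fun j hj i hi => ((hst (Nf j) (hN2 j)).2 (lS l0 m j) (a5 j hj).1).2 i hi
      num := d1 b1
      q2 := e1
      q3 := e2 }

end

end Pool.Agent.H96.MC.M86
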